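import Pool.Agent.Helper81.Cocycle.Final

set_option autoImplicit false

/-!
Cocycles close to perfect: for even `k` and `n > k` there is a cocycle whose number of non-edges is
at most `(1 + (n-k-1)^2/n) * binom(n,k)/(k+1)`.

Non-edges: the `k`-sets `A` of `ZMod n` with sum `g`, corrected by the cone over a point `v` of the
family of those `(k+1)`-sets which contain no such `k`-set.
-/

namespace Pool.Agent.Helper30.NearDiag

open Finset

variable {n : ℕ} [NeZero n]

/-- `B` contains (exactly) one subset `B \ {x}` of sum `g` -/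
def Good (g : Fin n) (B : Finset (Fin n)) : Prop := (∑ x ∈ B, x) - g ∈ B

instance (g : Fin n) (B : Finset (Fin n)) : Decidable (Good g B) := by
  unfold Good; infer_instance

lemma sum_erase' (B : Finset (Fin n)) (x : Fin n) (hx : x ∈ B) :
    (∑ y ∈ B.erase x, y) = (∑ y ∈ B, y) - x := by
  rw [← Finset.sum_erase_add _ _ hx, add_sub_cancel_right]

/-- the involution `y ↦ c - y`. -/
theorem sum_pairs (U : Finset (Fin n)) (c : Fin n) :
    ∑ y ∈ U, (if (c - y ∈ U ∧ c - y ≠ y) then (1 : ZMod 2) else 0) = 0 := by
  classical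
  rw [← Finset.sum_filter]
  refine Finset.sum_involution (fun y _ => c - y) ?_ ?_ ?_ ?_
  · intro a _; decide
  · intro a ha _
    exact (Finset.mem_filter.mp ha).2.2
  · intro a ha
    rw [Finset.mem_filter] at ha ⊢
    refine ⟨ha.2.1, ?_, ?_⟩
    · rw [sub_sub_cancel]; exact ha.1
    · rw [sub_sub_cancel]; exact fun h => ha.2.2 h.symm
  · intro a ha
    exact sub_sub_cancel _ _

theorem sum_bad (g : Fin n) (U : Finset (Fin n)) (hU : Even U.card) :
    ∑ y ∈ U, (if Good g (U.erase y) then (0 : ZMod 2) else 1) = 0 := by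
  classical
  have h1 : ∀ y ∈ U, (if Good g (U.erase y) then (0 : ZMod 2) else 1)
      = 1 - (if (((∑ x ∈ U, x) - g) - y ∈ U ∧ ((∑ x ∈ U, x) - g) - y ≠ y) then (1 : ZMod 2) else 0) := by
    intro y hy
    have e : Good g (U.erase y) ↔ (((∑ x ∈ U, x) - g) - y ∈ U ∧ ((∑ x ∈ U, x) - g) - y ≠ y) := by
      unfold Good
      rw [sum_erase' U y hy, Finset.mem_erase, sub_right_comm]
      tauto
    by_cases h : Good g (U.erase y)
    · rw [if_pos h, if_pos (e.mp h)]; decide
    · rw [if_neg h, if_neg (fun h' => h (e.mpr h'))]; decide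
  rw [Finset.sum_congr rfl h1, Finset.sum_sub_distrib, sum_pairs, sub_zero, Finset.sum_const,
    nsmul_eq_mul, mul_one]
  exact (ZMod.natCast_eq_zero_iff_even).mpr hU

/-- the indicator of the non-edges -/
def ind (g v : Fin n) (A : Finset (Fin n)) : ZMod 2 :=
  (if (∑ x ∈ A, x) = g then 1 else 0) + (if (v ∉ A ∧ ¬ Good g (insert v A)) then 1 else 0)

theorem sum_ind (g v : Fin n) (S : Finset (Fin n)) (hS : Odd S.card) :
    ∑ x ∈ S, ind g v (S.erase x) = 1 := by
  classical
  unfold ind
  rw [Finset.sum_add_distrib]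
  have h1 : ∑ x ∈ S, (if (∑ y ∈ S.erase x, y) = g then (1 : ZMod 2) else 0)
      = if Good g S then 1 else 0 := by
    have : ∀ x ∈ S, (if (∑ y ∈ S.erase x, y) = g then (1 : ZMod 2) else 0)
        = if x = (∑ y ∈ S, y) - g then (1 : ZMod 2) else 0 := by
      intro x hx
      rw [sum_erase' S x hx]
      refine if_congr ?_ rfl rfl
      constructor
      · intro h; rw [← h, sub_sub_cancel]
      · intro h; rw [h, sub_sub_cancel]
    rw [Finset.sum_congr rfl this, Finset.sum_ite_eq']
    rfl
  have h2 : ∑ x ∈ S, (if (v ∉ S.erase x ∧ ¬ Good g (insert v (S.erase x))) then (1 : ZMod 2) else 0)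
      = if Good g S then 0 else 1 := by
    by_cases hv : v ∈ S
    · have : ∀ x ∈ S, (if (v ∉ S.erase x ∧ ¬ Good g (insert v (S.erase x))) then (1 : ZMod 2) else 0)
          = if x = v then (if Good g S then 0 else 1) else 0 := by
        intro x hx
        by_cases hxv : x = v
        · subst hxv
          rw [if_pos rfl, Finset.insert_erase hx]
          by_cases hg : Good g S
          · rw [if_neg (fun h => h.2 hg), if_pos hg]
          · rw [if_pos ⟨Finset.notMem_erase _ _, hg⟩, if_neg hg]
        · rw [if_neg hxv, if_neg]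
          rintro ⟨h, -⟩
          exact h (Finset.mem_erase.mpr ⟨fun h' => hxv h'.symm, hv⟩)
      rw [Finset.sum_congr rfl this, Finset.sum_ite_eq', if_pos hv]
    · have hU : Even (insert v S).card := by
        rw [Finset.card_insert_of_notMem hv]; exact hS.add_one
      have h3 := sum_bad g (insert v S) hU
      rw [Finset.sum_insert hv, Finset.erase_insert hv] at h3
      have : ∀ x ∈ S, (if (v ∉ S.erase x ∧ ¬ Good g (insert v (S.erase x))) then (1 : ZMod 2) else 0)
          = if Good g ((insert v S).erase x) then (0 : ZMod 2) else 1 := by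
        intro x hx
        have hxv : x ≠ v := fun h => hv (h ▸ hx)
        have e : (insert v S).erase x = insert v (S.erase x) :=
          Finset.erase_insert_of_ne (fun h => hxv h.symm)
        rw [e]
        by_cases hg : Good g (insert v (S.erase x))
        · rw [if_neg (fun h => h.2 hg), if_pos hg]
        · rw [if_pos ⟨fun h => hv (Finset.mem_of_mem_erase h), hg⟩, if_neg hg]
      rw [Finset.sum_congr rfl this]
      have h4 : ∀ a b : ZMod 2, a + b = 0 → b = a := by decide
      exact h4 _ _ h3
  rw [h1, h2]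
  by_cases hg : Good g S
  · rw [if_pos hg, if_pos hg]; decide
  · rw [if_neg hg, if_neg hg]; decide

end Pool.Agent.Helper30.NearDiag
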