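import Pool.Agent.Helper30.NearDiag.Basic

set_option autoImplicit false

namespace Pool.Agent.Helper30.NearDiag

open Finset

variable {n : ℕ} [NeZero n]

/-- the `k`-sets of sum `g` -/
def F0 (k : ℕ) (g : Fin n) : Finset (Finset (Fin n)) :=
  ((univ : Finset (Fin n)).powersetCard k).filter (fun A => (∑ x ∈ A, x) = g)

/-- the good `(k+1)`-sets -/
def G1 (k : ℕ) (g : Fin n) : Finset (Finset (Fin n)) :=
  ((univ : Finset (Fin n)).powersetCard (k + 1)).filter (fun B => Good g B)

/-- the non-edges -/
def NE (k : ℕ) (g v : Fin n) : Finset (Finset (Fin n)) :=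
  ((univ : Finset (Fin n)).powersetCard k).filter (fun A => ind g v A ≠ 0)

theorem card_F0_mul (k : ℕ) (g : Fin n) :
    (F0 k g).card * (n - k) = (G1 k g).card := by
  classical
  have h := Finset.sum_card_bipartiteAbove_eq_sum_card_bipartiteBelow
    (s := F0 k g) (t := (univ : Finset (Fin n)).powersetCard (k + 1)) (fun A B => A ⊆ B)
  have h1 : ∀ A ∈ F0 k g, (bipartiteAbove (fun A B => A ⊆ B)
      ((univ : Finset (Fin n)).powersetCard (k + 1)) A).card = n - k := by
    intro A hA
    have hAc := (Finset.mem_powersetCard.mp (Finset.mem_filter.mp hA).1).2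
    have e : bipartiteAbove (fun A B => A ⊆ B) ((univ : Finset (Fin n)).powersetCard (k + 1)) A
        = (Aᶜ).image (fun x => insert x A) := by
      ext B
      simp only [Finset.bipartiteAbove, Finset.mem_filter, Finset.mem_powersetCard,
        Finset.mem_image, Finset.mem_compl]
      constructor
      · rintro ⟨⟨-, hBc⟩, hsub⟩
        have h1 : (B \ A).card = 1 := by
          rw [Finset.card_sdiff_of_subset hsub, hBc, hAc]; omega
        obtain ⟨x, hx⟩ := Finset.card_eq_one.mp h1
        have hxB : x ∈ B \ A := by rw [hx]; exact Finset.mem_singleton_self x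
        refine ⟨x, (Finset.mem_sdiff.mp hxB).2, ?_⟩
        rw [Finset.insert_eq, ← hx]
        exact Finset.sdiff_union_of_subset hsub
      · rintro ⟨x, hx, rfl⟩
        exact ⟨⟨Finset.subset_univ _, by rw [Finset.card_insert_of_notMem hx, hAc]⟩,
          Finset.subset_insert _ _⟩
    rw [e, Finset.card_image_of_injOn, Finset.card_compl, Fintype.card_fin, hAc]
    intro x hx y hy hxy
    simp only [Finset.coe_compl, Set.mem_compl_iff, Finset.mem_coe] at hx hy
    have : x ∈ insert y A := by
      have := Finset.mem_insert_self x A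
      rwa [show insert x A = insert y A from hxy] at this
    rcases Finset.mem_insert.mp this with h | h
    · exact h
    · exact absurd h hx
  have h2 : ∀ B ∈ (univ : Finset (Fin n)).powersetCard (k + 1),
      (bipartiteBelow (fun A B => A ⊆ B) (F0 k g) B).card = if Good g B then 1 else 0 := by
    intro B hB
    have hBc := (Finset.mem_powersetCard.mp hB).2
    have hmem : ∀ A, A ∈ bipartiteBelow (fun A B => A ⊆ B) (F0 k g) B ↔
        (Good g B ∧ A = B.erase ((∑ x ∈ B, x) - g)) := by
      intro A
      simp only [Finset.bipartiteBelow, Finset.mem_filter, F0, Finset.mem_powersetCard]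
      constructor
      · rintro ⟨⟨⟨-, hAc⟩, hs⟩, hsub⟩
        have h1 : (B \ A).card = 1 := by
          rw [Finset.card_sdiff_of_subset hsub, hBc, hAc]; omega
        obtain ⟨x, hx⟩ := Finset.card_eq_one.mp h1
        have hxB : x ∈ B \ A := by rw [hx]; exact Finset.mem_singleton_self x
        have he : B.erase x = A := by
          rw [← Finset.sdiff_singleton_eq_erase, ← hx]
          exact Finset.sdiff_sdiff_eq_self hsub
        have hxB' := (Finset.mem_sdiff.mp hxB).1
        have hx2 : x = (∑ x ∈ B, x) - g := by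
          rw [← hs, ← he, sum_erase' B x hxB', sub_sub_cancel]
        refine ⟨?_, by rw [← hx2, he]⟩
        unfold Good
        rw [← hx2]; exact hxB'
      · rintro ⟨hg, rfl⟩
        refine ⟨⟨⟨Finset.subset_univ _, ?_⟩, ?_⟩, Finset.erase_subset _ _⟩
        · rw [Finset.card_erase_of_mem hg, hBc]; rfl
        · rw [sum_erase' B _ hg, sub_sub_cancel]
    by_cases hg : Good g B
    · rw [if_pos hg, Finset.card_eq_one]
      refine ⟨B.erase ((∑ x ∈ B, x) - g), ?_⟩
      ext A
      rw [hmem, Finset.mem_singleton]
      exact ⟨fun h => h.2, fun h => ⟨hg, h⟩⟩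
    · rw [if_neg hg, Finset.card_eq_zero]
      ext A
      rw [hmem]
      simp [hg]
  rw [Finset.sum_congr rfl h1, Finset.sum_congr rfl h2, Finset.sum_const, smul_eq_mul] at h
  rw [h, G1, Finset.card_filter]

/-- averaging over `g` -/
theorem exists_g (k : ℕ) : ∃ g : Fin n,
    (k + 1) * n.choose (k + 1) ≤ n * (G1 k g).card := by
  classical
  by_contra hcon
  push Not at hcon
  have hsum : ∑ g : Fin n, (G1 k g).card = (k + 1) * n.choose (k + 1) := by
    unfold G1
    simp_rw [Finset.card_filter]
    rw [Finset.sum_comm]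
    have : ∀ B ∈ (univ : Finset (Fin n)).powersetCard (k + 1),
        ∑ g : Fin n, (if Good g B then 1 else 0) = k + 1 := by
      intro B hB
      have hBc := (Finset.mem_powersetCard.mp hB).2
      rw [← Finset.card_filter]
      have e : (univ : Finset (Fin n)).filter (fun g => Good g B)
          = B.image (fun x => (∑ x ∈ B, x) - x) := by
        ext g
        simp only [Finset.mem_filter, Finset.mem_univ, true_and, Finset.mem_image, Good]
        constructor
        · intro h; exact ⟨_, h, sub_sub_cancel _ _⟩
        · rintro ⟨x, hx, rfl⟩; rw [sub_sub_cancel]; exact hx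
      rw [e, Finset.card_image_of_injective _ sub_right_injective, hBc]
    rw [Finset.sum_congr rfl this, Finset.sum_const, Finset.card_powersetCard, Finset.card_univ,
      Fintype.card_fin, smul_eq_mul, mul_comm]
  have h2 : n * ∑ g : Fin n, (G1 k g).card < n * ((k + 1) * n.choose (k + 1)) := by
    rw [Finset.mul_sum]
    calc ∑ g : Fin n, n * (G1 k g).card < ∑ g : Fin n, (k + 1) * n.choose (k + 1) :=
          Finset.sum_lt_sum_of_nonempty (Finset.univ_nonempty) (fun g _ => hcon g)
      _ = n * ((k + 1) * n.choose (k + 1)) := by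
          rw [Finset.sum_const, Finset.card_univ, Fintype.card_fin, smul_eq_mul]
  rw [hsum] at h2
  exact lt_irrefl _ h2

theorem card_NE_le (k : ℕ) (g v : Fin n) :
    (NE k g v).card ≤ (F0 k g).card + (n.choose (k + 1) - (G1 k g).card) := by
  classical
  have hsub : NE k g v ⊆ F0 k g ∪
      (((univ : Finset (Fin n)).powersetCard (k + 1)).filter (fun B => ¬ Good g B)).image
        (fun B => B.erase v) := by
    intro A hA
    obtain ⟨hA1, hA2⟩ := Finset.mem_filter.mp hA
    have hAc := (Finset.mem_powersetCard.mp hA1).2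
    rw [Finset.mem_union]
    by_cases h : (∑ x ∈ A, x) = g
    · left; exact Finset.mem_filter.mpr ⟨hA1, h⟩
    · right
      have h2 : v ∉ A ∧ ¬ Good g (insert v A) := by
        by_contra h3
        apply hA2
        unfold ind
        rw [if_neg h, if_neg h3]; decide
      rw [Finset.mem_image]
      refine ⟨insert v A, Finset.mem_filter.mpr ⟨Finset.mem_powersetCard.mpr
        ⟨Finset.subset_univ _, by rw [Finset.card_insert_of_notMem h2.1, hAc]⟩, h2.2⟩,
        Finset.erase_insert h2.1⟩
  refine le_trans (Finset.card_le_card hsub) (le_trans (Finset.card_union_le _ _) ?_)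
  refine Nat.add_le_add_left ?_ _
  refine le_trans Finset.card_image_le ?_
  have h := Finset.card_filter_add_card_filter_not (s := (univ : Finset (Fin n)).powersetCard (k + 1))
    (fun B => Good g B)
  rw [Finset.card_powersetCard, Finset.card_univ, Fintype.card_fin] at h
  have : (G1 k g).card = (((univ : Finset (Fin n)).powersetCard (k + 1)).filter
    (fun B => Good g B)).card := rfl
  omega

/-- the main count -/
theorem exists_NE (k t : ℕ) (hn : n = k + t + 1) : ∃ g v : Fin n,
    n * (k + 1) * (NE k g v).card ≤ (n + t ^ 2) * n.choose k := by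
  obtain ⟨g, hg⟩ := exists_g (n := n) k
  refine ⟨g, 0, ?_⟩
  have h1 := card_F0_mul k g
  have h2 := card_NE_le k g (0 : Fin n)
  have hle : (G1 k g).card ≤ n.choose (k + 1) := by
    refine le_trans (Finset.card_filter_le _ _) ?_
    rw [Finset.card_powersetCard, Finset.card_univ, Fintype.card_fin]
  have h3 : n.choose (k + 1) * (k + 1) = n.choose k * (n - k) := Nat.choose_succ_right_eq n k
  have hs : n - k = t + 1 := by omega
  rw [hs] at h1 h3
  set N := (NE k g (0 : Fin n)).card
  set F := (F0 k g).card
  set G := (G1 k g).card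
  set B := n.choose (k + 1)
  set C := n.choose k
  obtain ⟨D, hD⟩ := Nat.exists_eq_add_of_le hle
  have h2' : N ≤ F + D := by omega
  -- multiply by (t+1)
  have h4 : (t + 1) * N ≤ G + (t + 1) * D := by
    calc (t + 1) * N ≤ (t + 1) * (F + D) := Nat.mul_le_mul_left _ h2'
      _ = F * (t + 1) + (t + 1) * D := by ring
      _ = G + (t + 1) * D := by rw [h1]
  have h5 : n * ((t + 1) * N) + t * (n * G) ≤ n * ((t + 1) * B) := by
    calc n * ((t + 1) * N) + t * (n * G) ≤ n * (G + (t + 1) * D) + t * (n * G) :=
          Nat.add_le_add_right (Nat.mul_le_mul_left _ h4) _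
      _ = n * ((t + 1) * (G + D)) := by ring
      _ = n * ((t + 1) * B) := by rw [← hD]
  have h6 : n * ((t + 1) * N) + t * ((k + 1) * B) ≤ n * ((t + 1) * B) :=
    le_trans (Nat.add_le_add_left (Nat.mul_le_mul_left _ hg) _) h5
  have h7 : n * ((t + 1) * B) = t * ((k + 1) * B) + (n + t ^ 2) * B := by
    rw [hn]; ring
  rw [h7] at h6
  have h8 : n * ((t + 1) * N) ≤ (n + t ^ 2) * B := by omega
  have h9 : (t + 1) * (n * (k + 1) * N) ≤ (t + 1) * ((n + t ^ 2) * C) := by
    calc (t + 1) * (n * (k + 1) * N) = (k + 1) * (n * ((t + 1) * N)) := by ring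
      _ ≤ (k + 1) * ((n + t ^ 2) * B) := Nat.mul_le_mul_left _ h8
      _ = (n + t ^ 2) * (B * (k + 1)) := by ring
      _ = (n + t ^ 2) * (C * (t + 1)) := by rw [h3]
      _ = (t + 1) * ((n + t ^ 2) * C) := by ring
  exact Nat.le_of_mul_le_mul_left h9 (Nat.succ_pos t)

end Pool.Agent.Helper30.NearDiag
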