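import Pool.Agent.Helper30.NearDiag.Count

set_option autoImplicit false

namespace Pool.Agent.Helper30.NearDiag

open Finset

theorem odd_NE {n : ℕ} [NeZero n] (k : ℕ) (hk : Even k) (g v : Fin n) (S : Finset (Fin n))
    (hS : S.card = k + 1) :
    Even (((((univ : Finset (Fin n)).powersetCard k) \ NE k g v).filter (fun e => e ⊆ S)).card) := by
  classical
  have hodd : Odd S.card := by rw [hS]; exact hk.add_one
  have h0 := sum_ind g v S hodd
  have himg : (((univ : Finset (Fin n)).powersetCard k) \ NE k g v).filter (fun e => e ⊆ S)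
      = (S.filter (fun x => ind g v (S.erase x) = 0)).image (fun x => S.erase x) := by
    ext e
    simp only [NE, Finset.mem_filter, Finset.mem_sdiff, Finset.mem_powersetCard, Finset.mem_image,
      not_and, not_not]
    constructor
    · rintro ⟨⟨⟨-, hc⟩, hFe⟩, hsub⟩
      have h1 : (S \ e).card = 1 := by
        rw [Finset.card_sdiff_of_subset hsub, hS, hc]; omega
      obtain ⟨x, hx⟩ := Finset.card_eq_one.mp h1
      have hxS : x ∈ S \ e := by rw [hx]; exact Finset.mem_singleton_self x
      have he : S.erase x = e := by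
        rw [← Finset.sdiff_singleton_eq_erase, ← hx]
        exact Finset.sdiff_sdiff_eq_self hsub
      exact ⟨x, ⟨(Finset.mem_sdiff.mp hxS).1, by rw [he]; exact hFe ⟨Finset.subset_univ _, hc⟩⟩, he⟩
    · rintro ⟨x, ⟨hxS, hFx⟩, rfl⟩
      refine ⟨⟨⟨Finset.subset_univ _, ?_⟩, fun _ => hFx⟩, Finset.erase_subset _ _⟩
      rw [Finset.card_erase_of_mem hxS, hS]; rfl
  have hinj : Set.InjOn (fun x => S.erase x) (S : Set (Fin n)) := by
    intro x hx y hy hxy
    by_contra hne
    have h1 : y ∈ S.erase x := Finset.mem_erase.mpr ⟨fun h => hne h.symm, hy⟩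
    rw [show S.erase x = S.erase y from hxy] at h1
    exact Finset.notMem_erase y S h1
  rw [himg, Finset.card_image_of_injOn
    (hinj.mono (by intro x hx; exact (Finset.mem_filter.mp hx).1))]
  rw [← ZMod.natCast_eq_zero_iff_even, Finset.card_filter, Nat.cast_sum]
  have h5 : ∀ x ∈ S, ((if ind g v (S.erase x) = 0 then 1 else 0 : ℕ) : ZMod 2)
      = 1 - ind g v (S.erase x) := by
    intro x _
    have : ∀ a : ZMod 2, ((if a = 0 then 1 else 0 : ℕ) : ZMod 2) = 1 - a := by decide
    exact this _
  rw [Finset.sum_congr rfl h5, Finset.sum_sub_distrib, h0, Finset.sum_const, nsmul_eq_mul, mul_one,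
    hS]
  have h6 : ((k + 1 : ℕ) : ZMod 2) = 1 := by
    rw [Nat.cast_add, (ZMod.natCast_eq_zero_iff_even).mpr hk]; decide
  rw [h6, sub_self]

theorem main (k : ℕ) (hk : Even k) (n : ℕ) :
    ∃ C : Finset (Finset (Fin n)),
      (∀ e ∈ C, e.card = k) ∧
      (∀ S : Finset (Fin n), S.card = k + 1 →
        Even ((C.filter (fun e => e ⊆ S)).card)) ∧
      n * (k + 1) * (n.choose k - C.card) ≤ (n + (n - k - 1) ^ 2) * n.choose k ∧
      ∀ H : Finset (Finset (Fin n)),
        (∀ e ∈ H, e.card = k) →
        (∀ S : Finset (Fin n), S.card = k + 1 → ¬ (S.powersetCard k ⊆ H)) →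
        n * (n.choose k - C.card) ≤ (n + (n - k - 1) ^ 2) * (n.choose k - H.card) := by
  classical
  rcases Nat.lt_or_ge k n with hkn | hkn
  · haveI : NeZero n := ⟨by omega⟩
    obtain ⟨g, v, hgv⟩ := exists_NE (n := n) k (n - k - 1) (by omega)
    have hsub : NE k g v ⊆ (univ : Finset (Fin n)).powersetCard k := Finset.filter_subset _ _
    have hc : n.choose k - (((univ : Finset (Fin n)).powersetCard k) \ NE k g v).card
        = (NE k g v).card := by
      rw [Finset.card_sdiff_of_subset hsub, Finset.card_powersetCard, Finset.card_univ,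
        Fintype.card_fin]
      have : (NE k g v).card ≤ n.choose k := by
        refine le_trans (Finset.card_le_card hsub) ?_
        rw [Finset.card_powersetCard, Finset.card_univ, Fintype.card_fin]
      omega
    refine ⟨((univ : Finset (Fin n)).powersetCard k) \ NE k g v, ?_, ?_, ?_, ?_⟩
    · intro e he
      exact (Finset.mem_powersetCard.mp (Finset.mem_sdiff.mp he).1).2
    · intro S hS
      exact odd_NE k hk g v S hS
    · rw [hc]; exact hgv
    · intro H hH hfree
      rw [hc]
      have h1 := Pool.Agent.Helper81.Cocycle.choose_le_of_cliqueFree (n := n) (k := k) (by omega) H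
        hfree
      have h2 : (((univ : Finset (Fin n)).powersetCard k) \ H).card = n.choose k - H.card := by
        rw [Finset.card_sdiff_of_subset, Finset.card_powersetCard, Finset.card_univ,
          Fintype.card_fin]
        intro e he
        exact Finset.mem_powersetCard.mpr ⟨Finset.subset_univ _, hH e he⟩
      rw [h2] at h1
      have h3 : (k + 1) * (n * (NE k g v).card)
          ≤ (k + 1) * ((n + (n - k - 1) ^ 2) * (n.choose k - H.card)) := by
        calc (k + 1) * (n * (NE k g v).card) = n * (k + 1) * (NE k g v).card := by ring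
          _ ≤ (n + (n - k - 1) ^ 2) * n.choose k := hgv
          _ ≤ (n + (n - k - 1) ^ 2) * ((k + 1) * (n.choose k - H.card)) :=
              Nat.mul_le_mul_left _ h1
          _ = (k + 1) * ((n + (n - k - 1) ^ 2) * (n.choose k - H.card)) := by ring
      exact Nat.le_of_mul_le_mul_left h3 (Nat.succ_pos k)
  · have hc : n.choose k - ((univ : Finset (Fin n)).powersetCard k).card = 0 := by
      rw [Finset.card_powersetCard, Finset.card_univ, Fintype.card_fin, Nat.sub_self]
    refine ⟨(univ : Finset (Fin n)).powersetCard k, ?_, ?_, ?_, ?_⟩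
    · intro e he
      exact (Finset.mem_powersetCard.mp he).2
    · intro S hS
      exfalso
      have : S.card ≤ n := by
        have := Finset.card_le_univ S
        rwa [Fintype.card_fin] at this
      omega
    · rw [hc, mul_zero]; exact Nat.zero_le _
    · intro H _ _
      rw [hc, mul_zero]; exact Nat.zero_le _

end Pool.Agent.Helper30.NearDiag
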